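import Pool.Agent.MP_77f003_co.H49.USpec

/-!
Elliptic groups: ping-pong, openness of having an infinite orbit, and legs.
-/

namespace Pool.Agent.MP_77f003_co.H49

open SimpleGraph Filter

variable {V : Type} {G : SimpleGraph V} [Fact G.Connected]

theorem omega_compl (o a : V) (r : ℕ) (z : V) (hz : ¬ Lk G {w | r < G.dist o w} a z) :
    Lk G {x | ¬ Lk G {w | r < G.dist o w} a x} o z := by
  generalize hk : G.dist z o = k
  induction k generalizing z with
  | zero =>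
    rw [← eq_of_dist hk]
    exact Lk.refl (eq_of_dist hk ▸ hz)
  | succ k ih =>
    obtain ⟨y, hy, hy'⟩ := exists_step hk
    have h1 : ¬ Lk G {w | r < G.dist o w} a y := fun h => hz (h.trans (Lk.adj hy.symm h.right (by
      have : r < G.dist o y := h.right
      show r < G.dist o z
      rw [dcomm] at this ⊢
      omega)))
    exact (ih y h1 hy').trans (Lk.adj hy.symm h1 hz)

theorem omega_dist_inv (g : G ≃g G) (o x : V) : G.dist o (g x) = G.dist (g⁻¹ o) x := by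
  rw [← dist_iso g (g⁻¹ o) x]
  simp

theorem omega_key {o : V} {r : ℕ} {g : G ≃g G} (hg : 2 * r + 2 ≤ G.dist o (g o)) {z : V}
    (hz : ¬ Lk G {w | r < G.dist o w} (g⁻¹ o) z) : Lk G {w | r < G.dist o w} (g o) (g z) := by
  refine ((omega_compl o _ r z hz).map g).mono ?_
  rintro _ ⟨w, hw, rfl⟩
  by_contra hcon
  refine hw (Lk.ball fun x hx => ?_)
  have e1 : ¬ r < G.dist o (g w) := hcon
  have e2 := tri (G := G) (g⁻¹ o) x o
  rw [omega_dist_inv] at e1 hg
  show r < G.dist o x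
  rw [dcomm]
  omega

omit [Fact G.Connected] in
theorem omega_pp {h : G ≃g G} {o : V} {Y : Set V} (ho : o ∈ Y) (hY : ∀ z ∈ Y, h z ∈ Y ∧ h z ≠ o) :
    (Set.range fun n : ℕ => (h ^ n) o).Infinite := by
  have h1 : ∀ n : ℕ, (h ^ n) o ∈ Y := fun n => by
    induction n with
    | zero => exact ho
    | succ n ih =>
      rw [pow_succ']
      exact (hY _ ih).1
  refine Set.infinite_range_of_injective (Function.Injective.of_lt_imp_ne fun m n hmn e => ?_)
  obtain ⟨k, rfl⟩ := Nat.exists_eq_add_of_lt hmn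
  rw [add_assoc, pow_add, pow_succ'] at e
  exact (hY _ (h1 k)).2 ((h ^ m).injective e).symm

theorem omegaSpec : OmegaSpec := by
  intro V G _ P o r hP
  have key : ∀ g ∈ P, ∀ g' ∈ P, 2 * r + 2 ≤ G.dist o (g o) → 2 * r + 2 ≤ G.dist o (g' o) →
      Lk G {w | r < G.dist o w} (g⁻¹ o) (g' o) ∨ Lk G {w | r < G.dist o w} (g'⁻¹ o) (g o) := by
    intro g hg g' hg' h h'
    by_contra hcon
    rw [not_or] at hcon
    refine omega_pp (h := g' * g) (Y := {z | ¬ Lk G {w | r < G.dist o w} (g⁻¹ o) z})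
      (fun e => by simpa using e.right) (fun z hz => ?_) (hP _ (P.mul_mem hg' hg) o)
    have e := omega_key h' fun e => hcon.2 (e.trans (omega_key h hz).symm)
    exact ⟨fun e' => hcon.1 (e'.trans e.symm), fun e' => by
      have := e.right
      rw [show g' (g z) = o from e'] at this
      simp at this⟩
  intro φ hφ ψ hψ h h'
  rcases key φ hφ ψ hψ h h' with e | e
  · exact ((key φ hφ φ hφ h h).elim id id).symm.trans e
  · exact e.symm.trans ((key ψ hψ ψ hψ h' h').elim id id)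

theorem willisSpec : WillisSpec := by
  intro V G _ _ g y hinf
  set B : ℕ → Set V := fun n => {z | ∃ θ : G ≃g G, (∀ i ≤ n, θ ((g ^ i) y) = (g ^ i) y) ∧
    θ ((g ^ (n + 1)) y) = z} with hB
  have hfin : ∀ n, (B n).Finite := fun n =>
    (finite_ball (G := G) y (G.dist y ((g ^ (n + 1)) y))).subset (by
      rintro _ ⟨θ, h1, rfl⟩
      have e : θ y = y := h1 0 (Nat.zero_le _)
      show G.dist y _ ≤ _
      rw [← dist_iso θ y ((g ^ (n + 1)) y), e])
  have hs : ∀ i : ℕ, (g ^ (i + 1)) y = g ((g ^ i) y) := fun i => by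
    rw [pow_succ']
    rfl
  have hsub : ∀ n, B (n + 1) ⊆ g '' B n := by
    rintro n _ ⟨θ, h1, rfl⟩
    refine ⟨_, ⟨g⁻¹ * θ * g, fun i hi => ?_, rfl⟩, ?_⟩
    · show g⁻¹ (θ (g _)) = _
      rw [← hs, h1 _ (by omega), hs]
      simp
    · show g (g⁻¹ (θ (g _))) = _
      rw [← hs]
      simp
  have hc : ∀ n, (g '' B n).ncard = (B n).ncard := fun n =>
    Set.ncard_image_of_injective _ g.injective
  have hanti : Antitone fun n => (B n).ncard := antitone_nat_of_succ_le fun n =>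
    (Set.ncard_le_ncard (hsub n) ((hfin n).image _)).trans (hc n).le
  obtain ⟨k, hk⟩ : ∃ k, ∀ n, (B k).ncard ≤ (B n).ncard :=
    ⟨Function.argmin fun n => (B n).ncard, fun n => Function.argmin_le (fun n => (B n).ncard) n⟩
  have heq : ∀ n, k ≤ n → B (n + 1) = g '' B n := fun n hn =>
    Set.eq_of_subset_of_ncard_le (hsub n) ((hc n).le.trans ((hanti hn).trans (hk _)))
      ((hfin n).image _)
  refine ⟨k + 1, fun g' hg' hf => hinf ?_⟩
  have hs' : ∀ i : ℕ, (g' ^ (i + 1)) y = g' ((g' ^ i) y) := fun i => by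
    rw [pow_succ']
    rfl
  have key : ∀ n, k ≤ n → ∃ φ : G ≃g G, ∀ i ≤ n + 1, φ ((g ^ i) y) = (g' ^ i) y := by
    intro n hn
    induction n, hn using Nat.le_induction with
    | base =>
      refine ⟨1, fun i hi => ?_⟩
      induction i with
      | zero => rfl
      | succ i ih =>
        rw [hs', ← ih (by omega)]
        exact (hg' i (by omega)).symm
    | succ n hn ih =>
      obtain ⟨φ, hφ⟩ := ih
      have : g ((g⁻¹ * φ⁻¹ * g' * φ) ((g ^ (n + 1)) y)) ∈ B (n + 1) := by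
        rw [heq n hn]
        refine ⟨_, ⟨_, fun i hi => ?_, rfl⟩, rfl⟩
        show g⁻¹ (φ⁻¹ (g' (φ _))) = _
        rw [hφ i (by omega), ← hs', ← hφ _ (by omega), hs]
        simp
      obtain ⟨θ, h1, h2⟩ := this
      refine ⟨φ * θ, fun i hi => ?_⟩
      show φ (θ _) = _
      rcases hi.lt_or_eq with hi | rfl
      · rw [h1 i (by omega), hφ i (by omega)]
      · rw [h2]
        show φ (g (g⁻¹ (φ⁻¹ (g' (φ _))))) = _
        rw [hφ _ le_rfl, ← hs']
        simp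
  obtain ⟨M, hM⟩ := (hf.image (G.dist y)).bddAbove
  refine (finite_ball (G := G) y M).subset ?_
  rintro _ ⟨n, rfl⟩
  obtain ⟨φ, hφ⟩ := key (k + n) (by omega)
  have e : φ y = y := hφ 0 (Nat.zero_le _)
  show G.dist y ((g ^ n) y) ≤ M
  rw [← dist_iso φ, e, hφ n (by omega)]
  exact hM ⟨_, ⟨n, rfl⟩, rfl⟩

theorem legSpec (hO : OmegaSpec) : LegSpec := by
  intro V G _ _ P Q W Z g s R hP hinf hWQ hQP hQ hZ hne hconn hg hfar
  obtain ⟨o, ho⟩ : ∃ o : V, (MulAction.orbit P o).Infinite := not_forall.1 hinf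
  set Y : Set V := ⋃ z ∈ Z, MulAction.orbit Q z with hY
  have hYf : Y.Finite := hZ.biUnion fun z _ => hQ z
  have hYm : ∀ q ∈ Q, ∀ y ∈ Y, q y ∈ Y := by
    intro q hq y hy
    obtain ⟨z, hz, q', rfl⟩ := Set.mem_iUnion₂.1 hy
    exact Set.mem_biUnion hz ⟨⟨q, hq⟩ * q', rfl⟩
  have hZY : Z ⊆ Y := fun z hz => Set.mem_biUnion hz (MulAction.mem_orbit_self z)
  obtain ⟨f, f1, f2⟩ : ∃ f : V → ℕ, (∀ x, ∃ y ∈ Y, G.dist y x = f x) ∧
      ∀ x, ∀ y ∈ Y, f x ≤ G.dist y x :=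
    ⟨fun x => sInf ((fun y => G.dist y x) '' Y),
      fun x => Nat.sInf_mem ((hne.mono hZY).image _), fun x y hy => Nat.sInf_le ⟨y, hy, rfl⟩⟩
  have finv : ∀ q ∈ Q, ∀ x, f (q x) = f x := by
    intro q hq x
    apply le_antisymm
    · obtain ⟨y, hy, e⟩ := f1 x
      rw [← e, ← dist_iso q]
      exact f2 _ _ (hYm q hq y hy)
    · obtain ⟨y, hy, e⟩ := f1 (q x)
      rw [← e, omega_dist_inv]
      exact f2 _ _ (hYm _ (Q.inv_mem hq) y hy)
  have lip : ∀ x y, f x ≤ f y + G.dist x y := by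
    intro x y
    obtain ⟨z, hz, e⟩ := f1 y
    have e1 := f2 x z hz
    have e2 := tri (G := G) z y x
    rw [dcomm x y]
    omega
  have ffin : ∀ n, {x | f x ≤ n}.Finite := fun n =>
    (hYf.biUnion fun y _ => finite_ball (G := G) y n).subset fun x hx => by
      obtain ⟨y, hy, e⟩ := f1 x
      exact Set.mem_biUnion hy (e.le.trans hx)
  have key : ∀ n : ℕ, ∃ φ ∈ P, ∃ q : ℕ → V, n ≤ f (φ o) ∧ q 0 ∈ Z ∧ ∀ t < n, f (q t) = t ∧
      G.Adj (q t) (q (t + 1)) ∧ Lk G {z | t ≤ f z} (q t) (φ o) := by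
    intro n
    obtain ⟨_, ⟨φ, rfl⟩, h1⟩ := ho.exists_notMem_finite (ffin n)
    have h2 : n < f (φ.1 o) := not_le.1 h1
    obtain ⟨y, hy, e⟩ := f1 (φ.1 o)
    obtain ⟨z, hz, q', rfl⟩ := Set.mem_iUnion₂.1 hy
    have e1 : G.dist z (q'.1⁻¹ (φ.1 o)) = f (q'.1⁻¹ (φ.1 o)) := by
      rw [finv _ (Q.inv_mem q'.2), ← e, omega_dist_inv]
      rfl
    rw [← finv _ (Q.inv_mem q'.2)] at h2
    obtain ⟨q, q0, q1, q2⟩ := exists_geo' (G := G) z (q'.1⁻¹ (φ.1 o))
    rw [e1] at q1 q2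
    have hlev : ∀ t ≤ f (q'.1⁻¹ (φ.1 o)), f (q t) = t := by
      intro t ht
      have a1 := f2 (q t) z (hZY hz)
      have a2 := q2 0 t (Nat.zero_le _) ht
      have a3 := q2 t _ ht le_rfl
      have a4 := lip (q'.1⁻¹ (φ.1 o)) (q t)
      rw [q0] at a2
      rw [q1, dcomm] at a3
      omega
    refine ⟨q'.1⁻¹ * φ.1, P.mul_mem (hQP (Q.inv_mem q'.2)) φ.2, q, h2.le, q0 ▸ hz,
      fun t ht => ⟨hlev t (by omega), dist_eq_one_iff_adj.1 (by rw [q2] <;> omega), ?_⟩⟩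
    refine Lk.geo fun w hw => ?_
    have a1 := q2 t _ (show t ≤ _ by omega) le_rfl
    have a2 := lip (q'.1⁻¹ (φ.1 o)) w
    rw [q1] at a1
    change _ + G.dist w (q'.1⁻¹ (φ.1 o)) ≤ G.dist _ (q'.1⁻¹ (φ.1 o)) at hw
    rw [dcomm] at a2
    show t ≤ f w
    omega
  choose φ hφ q k1 k2 k3 using key
  have hev : ∀ n : ℕ, ∀ᶠ M in hyperfilter ℕ, n < M := fun n =>
    Nat.hyperfilter_le_atTop (eventually_gt_atTop n)
  have lim : ∀ t : ℕ, ∃ y, ∀ᶠ M in hyperfilter ℕ, q M t = y := by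
    intro t
    obtain ⟨y, -, hy⟩ := (Ultrafilter.eventually_exists_mem_iff (f := hyperfilter ℕ)
      (P := fun y M => q M t = y) (ffin t)).1 (by
        filter_upwards [hev t] with M hM
        exact ⟨_, (k3 M t hM).1.le, rfl⟩)
    exact ⟨y, hy⟩
  choose α hα using lim
  refine ⟨f, fun i t => g i (α t), fun w hw => finv w (hWQ hw), lip, fun i hi => (hg i hi).2,
    ?_, ?_, hfar, fun i _ => ?_, fun i _ t => ?_, fun i hi t => ?_, fun i hi j hj r t hrt => ?_⟩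
  · rintro i - _ ⟨x, hx, rfl⟩ _ ⟨y, hy, rfl⟩
    exact (hconn x hx y hy).map _
  · rintro i hi _ ⟨x, hx, rfl⟩
    rw [finv _ (hg i hi).1]
    simpa using f2 x x (hZY hx)
  · obtain ⟨M, e⟩ := (hα 0).exists
    exact ⟨_, e ▸ k2 M, rfl⟩
  · obtain ⟨M, e1, e2, e3⟩ := ((hα t).and ((hα (t + 1)).and (hev t))).exists
    rw [← e1, ← e2]
    exact (g i).map_adj_iff.2 (k3 M t e3).2.1
  · obtain ⟨M, e1, e2⟩ := ((hα t).and (hev t)).exists
    rw [finv _ (hg i hi).1, ← e1]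
    exact (k3 M t e2).1
  · obtain ⟨ρ, hρ⟩ := ((ffin r).image (G.dist o)).bddAbove
    obtain ⟨M, e1, e2, e3⟩ := ((hα t).and ((hev t).and (hev (f o + 2 * ρ + 2)))).exists
    have a1 : ∀ i < s, Lk G {z | r < f z} (g i (α t)) (g i (φ M o)) := fun i hi =>
      ((e1 ▸ (k3 M t e2).2.2).map (g i)).mono (by
        rintro _ ⟨w, hw, rfl⟩
        show r < f _
        rw [finv _ (hg i hi).1]
        exact hrt.trans_le hw)
    have a2 : ∀ i < s, 2 * ρ + 2 ≤ G.dist o ((g i * φ M) o) := fun i hi => by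
      have b1 := lip (g i (φ M o)) o
      have b2 := k1 M
      rw [finv _ (hg i hi).1, dcomm] at b1
      show _ ≤ G.dist o (g i (φ M o))
      omega
    refine (a1 i hi).trans (((hO G P o ρ hP _ (P.mul_mem (hQP (hg i hi).1) (hφ M)) _
      (P.mul_mem (hQP (hg j hj).1) (hφ M)) (a2 i hi) (a2 j hj)).mono fun z hz => ?_).trans
      (a1 j hj).symm)
    by_contra hcon
    exact (hρ ⟨z, Nat.le_of_not_lt hcon, rfl⟩).not_gt hz

end Pool.Agent.MP_77f003_co.H49
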